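import Pool.Agent.W16.CM.Stm

open Finset

namespace Pool.Agent.W799.CM

open Pool.Agent.W16.CM

/-- a number below `T ^ 100` has at most nine prime divisors above `T ^ 10` -/
lemma card_primes_dvd (T m : ℕ) (hT : 1 ≤ T) (hm : 1 ≤ m) (hmT : m < T ^ 100) (S : Finset ℕ)
    (hS : ∀ q ∈ S, q.Prime ∧ T ^ 10 < q ∧ q ∣ m) : S.card ≤ 9 := by
  have h1 : (∏ q ∈ S, q) ∣ m :=
    Finset.prod_primes_dvd m (fun q hq => (hS q hq).1.prime) (fun q hq => (hS q hq).2.2)
  have h2 : (T ^ 10) ^ S.card ≤ ∏ q ∈ S, q := by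
    rw [← Finset.prod_const]
    exact Finset.prod_le_prod' (fun q hq => le_of_lt (hS q hq).2.1)
  by_contra h
  push Not at h
  have h3 : (T ^ 10) ^ 10 ≤ (T ^ 10) ^ S.card := Nat.pow_le_pow_right (Nat.pow_pos hT) h
  have h4 := Nat.le_of_dvd hm h1
  have h5 : (T ^ 10) ^ 10 = T ^ 100 := by rw [← pow_mul]
  omega

/-- the set of the good primes -/
def RR (T : ℕ) : Finset ℕ := (Ioc (T ^ 99) (T ^ 100)).filter
  (fun r => r.Prime ∧ ∃ q ∈ (Ioc (T ^ 10) (T ^ 39)).filter Nat.Prime, q ∣ r - 1)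

/-- the set of the possible proper prime powers -/
def PP (T : ℕ) : Finset ℕ := ((range (T ^ 50 + 1)) ×ˢ (range (100 * T + 1))).image
  (fun x => x.1 ^ x.2)

lemma card_PP (T : ℕ) : (PP T).card ≤ (T ^ 50 + 1) * (100 * T + 1) := by
  unfold PP
  refine card_image_le.trans ?_
  rw [card_product, card_range, card_range]

lemma RR_smooth (T r : ℕ) (hT : 1 ≤ T) (hr : r ∈ RR T) :
    r.Prime ∧ T ^ 99 < r ∧ r ≤ T ^ 100 ∧ ∀ p : ℕ, p.Prime → p ∣ r - 1 → p ≤ T ^ 90 := by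
  unfold RR at hr
  rw [mem_filter, mem_Ioc] at hr
  obtain ⟨⟨h1, h2⟩, h3, q, hq, hqr⟩ := hr
  rw [mem_filter, mem_Ioc] at hq
  obtain ⟨⟨hq1, hq2⟩, hq3⟩ := hq
  refine ⟨h3, h1, h2, fun p hp hpr => ?_⟩
  obtain ⟨m, hm⟩ := hqr
  have hr2 := h3.two_le
  have hm0 : 0 < m := by
    rcases Nat.eq_zero_or_pos m with h | h
    · subst h
      omega
    · exact h
  rw [hm] at hpr
  rcases (Nat.Prime.dvd_mul hp).1 hpr with h | h
  · have := (Nat.prime_dvd_prime_iff_eq hp hq3).1 h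
    subst this
    exact hq2.trans (Nat.pow_le_pow_right hT (by norm_num))
  · have h4 : p ≤ m := Nat.le_of_dvd hm0 h
    refine h4.trans ?_
    by_contra hc
    push Not at hc
    have h5 : T ^ 10 * T ^ 90 ≤ q * m := Nat.mul_le_mul hq1.le hc.le
    have h6 : T ^ 10 * T ^ 90 = T ^ 100 := by rw [← pow_add]
    omega

lemma key_point (T n : ℕ) (hT : 2 ≤ T) (hn1 : 1 ≤ n) (hn2 : n ≤ T ^ 100) :
    (∑ q ∈ (Ioc (T ^ 10) (T ^ 39)).filter Nat.Prime,
      if n ≡ 1 [MOD q] then ArithmeticFunction.vonMangoldt n * Real.log ((T : ℝ) ^ 100 / n)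
        else 0) ≤
    if n ∈ RR T ∪ Icc 1 (T ^ 99) ∪ PP T then 9 * (100 * Real.log T) ^ 2 else 0 := by
  have hTR : (1 : ℝ) ≤ T := by exact_mod_cast (by omega : 1 ≤ T)
  have hlogT : 0 ≤ Real.log T := Real.log_nonneg hTR
  have hnn : 0 ≤ (if n ∈ RR T ∪ Icc 1 (T ^ 99) ∪ PP T then 9 * (100 * Real.log T) ^ 2 else 0) := by
    split_ifs
    · positivity
    · exact le_refl _
  by_cases hΛ : ArithmeticFunction.vonMangoldt n = 0
  · rw [hΛ]
    simpa using hnn
  have hpp : IsPrimePow n := ArithmeticFunction.vonMangoldt_ne_zero_iff.1 hΛ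
  rw [← Finset.sum_filter, Finset.sum_const, nsmul_eq_mul]
  set S := ((Ioc (T ^ 10) (T ^ 39)).filter Nat.Prime).filter (fun q => n ≡ 1 [MOD q]) with hSdef
  rcases S.eq_empty_or_nonempty with hS | hS
  · rw [hS]
    simpa using hnn
  have hn2' : 2 ≤ n := hpp.two_le
  have hSq : ∀ q ∈ S, q.Prime ∧ T ^ 10 < q ∧ q ∣ n - 1 := by
    intro q hq
    rw [hSdef, mem_filter, mem_filter, mem_Ioc] at hq
    refine ⟨hq.1.2, hq.1.1.1, ?_⟩
    exact (Nat.modEq_iff_dvd' hn1).1 hq.2.symm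
  have hc : S.card ≤ 9 := card_primes_dvd T (n - 1) (by omega) (by omega) (by omega) S hSq
  have hW1 : ArithmeticFunction.vonMangoldt n ≤ 100 * Real.log T := by
    refine ArithmeticFunction.vonMangoldt_le_log.trans ?_
    have : (n : ℝ) ≤ (T : ℝ) ^ 100 := by exact_mod_cast hn2
    refine (Real.log_le_log (by exact_mod_cast hn1) this).trans ?_
    rw [Real.log_pow]
    norm_num
  have hnpos : (0 : ℝ) < n := by exact_mod_cast hn1
  have hn1R : (1 : ℝ) ≤ n := by exact_mod_cast hn1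
  have hW2 : Real.log ((T : ℝ) ^ 100 / n) ≤ 100 * Real.log T := by
    have : (T : ℝ) ^ 100 / n ≤ (T : ℝ) ^ 100 := div_le_self (by positivity) hn1R
    refine (Real.log_le_log (by positivity) this).trans ?_
    rw [Real.log_pow]
    norm_num
  have hW3 : 0 ≤ Real.log ((T : ℝ) ^ 100 / n) := by
    apply Real.log_nonneg
    rw [le_div_iff₀ hnpos, one_mul]
    exact_mod_cast hn2
  have hW4 : 0 ≤ ArithmeticFunction.vonMangoldt n := ArithmeticFunction.vonMangoldt_nonneg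
  have hmem : n ∈ RR T ∪ Icc 1 (T ^ 99) ∪ PP T := by
    rw [mem_union, mem_union]
    by_cases h99 : n ≤ T ^ 99
    · left; right
      rw [mem_Icc]
      exact ⟨hn1, h99⟩
    · push Not at h99
      rw [isPrimePow_nat_iff] at hpp
      obtain ⟨p, j, hp, hj, hpj⟩ := hpp
      by_cases hj1 : j = 1
      · left; left
        rw [hj1, pow_one] at hpj
        subst hpj
        unfold RR
        rw [mem_filter, mem_Ioc]
        obtain ⟨q, hq⟩ := hS
        refine ⟨⟨h99, hn2⟩, hp, q, ?_, (hSq q hq).2.2⟩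
        rw [hSdef, mem_filter] at hq
        exact hq.1
      · right
        unfold PP
        rw [mem_image]
        refine ⟨(p, j), ?_, hpj⟩
        rw [mem_product, mem_range, mem_range]
        have hj2 : 2 ≤ j := by omega
        constructor
        · show p < T ^ 50 + 1
          rw [Nat.lt_succ_iff]
          by_contra hc2
          push Not at hc2
          have h1 : (T ^ 50) ^ 2 < p ^ 2 := Nat.pow_lt_pow_left hc2 (by norm_num)
          have h2 : p ^ 2 ≤ p ^ j := Nat.pow_le_pow_right hp.pos hj2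
          have h3 : (T ^ 50) ^ 2 = T ^ 100 := by rw [← pow_mul]
          omega
        · show j < 100 * T + 1
          rw [Nat.lt_succ_iff]
          by_contra hc2
          push Not at hc2
          have h1 : 2 ^ (100 * T) < 2 ^ j := Nat.pow_lt_pow_right (by norm_num) hc2
          have h2 : 2 ^ j ≤ p ^ j := Nat.pow_le_pow_left hp.two_le j
          have h3 : T ^ 100 ≤ 2 ^ (100 * T) := by
            rw [mul_comm, pow_mul]
            exact Nat.pow_le_pow_left (Nat.lt_two_pow_self).le 100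
          omega
  rw [if_pos hmem]
  have hcR : (S.card : ℝ) ≤ 9 := by exact_mod_cast hc
  have hWW : ArithmeticFunction.vonMangoldt n * Real.log ((T : ℝ) ^ 100 / n) ≤
      (100 * Real.log T) ^ 2 := by
    rw [sq]
    exact mul_le_mul hW1 hW2 hW3 (by positivity)
  exact mul_le_mul hcR hWW (mul_nonneg hW4 hW3) (by norm_num)

lemma total (T : ℕ) (hT : 2 ≤ T) :
    ∑ q ∈ (Ioc (T ^ 10) (T ^ 39)).filter Nat.Prime,
    ∑ n ∈ (Icc 1 (T ^ 100)).filter (fun n => n ≡ 1 [MOD q]),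
      ArithmeticFunction.vonMangoldt n * Real.log ((T : ℝ) ^ 100 / n) ≤
    (((RR T).card : ℝ) + T ^ 99 + (T ^ 50 + 1) * (100 * T + 1)) *
      (9 * (100 * Real.log T) ^ 2) := by
  have h1 : ∑ q ∈ (Ioc (T ^ 10) (T ^ 39)).filter Nat.Prime,
      ∑ n ∈ (Icc 1 (T ^ 100)).filter (fun n => n ≡ 1 [MOD q]),
      ArithmeticFunction.vonMangoldt n * Real.log ((T : ℝ) ^ 100 / n) =
      ∑ n ∈ Icc 1 (T ^ 100), ∑ q ∈ (Ioc (T ^ 10) (T ^ 39)).filter Nat.Prime,
      if n ≡ 1 [MOD q] then ArithmeticFunction.vonMangoldt n * Real.log ((T : ℝ) ^ 100 / n)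
        else 0 := by
    rw [Finset.sum_comm]
    refine Finset.sum_congr rfl (fun q _ => ?_)
    rw [Finset.sum_filter]
  rw [h1]
  have h2 : ∑ n ∈ Icc 1 (T ^ 100), (∑ q ∈ (Ioc (T ^ 10) (T ^ 39)).filter Nat.Prime,
      if n ≡ 1 [MOD q] then ArithmeticFunction.vonMangoldt n * Real.log ((T : ℝ) ^ 100 / n)
        else 0) ≤ ∑ n ∈ Icc 1 (T ^ 100),
      (if n ∈ RR T ∪ Icc 1 (T ^ 99) ∪ PP T then 9 * (100 * Real.log T) ^ 2 else 0) := by
    refine Finset.sum_le_sum (fun n hn => ?_)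
    rw [mem_Icc] at hn
    exact key_point T n hT hn.1 hn.2
  refine h2.trans ?_
  rw [← Finset.sum_filter, Finset.sum_const, nsmul_eq_mul]
  refine mul_le_mul_of_nonneg_right ?_ (by positivity)
  have h3 : ((Icc 1 (T ^ 100)).filter (fun n => n ∈ RR T ∪ Icc 1 (T ^ 99) ∪ PP T)).card ≤
      (RR T).card + T ^ 99 + (T ^ 50 + 1) * (100 * T + 1) := by
    have h4 : (Icc 1 (T ^ 100)).filter (fun n => n ∈ RR T ∪ Icc 1 (T ^ 99) ∪ PP T) ⊆
        RR T ∪ Icc 1 (T ^ 99) ∪ PP T := by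
      intro n hn
      exact (mem_filter.1 hn).2
    refine (card_le_card h4).trans ?_
    refine (card_union_le _ _).trans ?_
    refine add_le_add ((card_union_le _ _).trans ?_) (card_PP T)
    rw [Nat.card_Icc]
    omega
  exact_mod_cast h3

theorem qb (hQA : St_QA) : St_QB := by
  obtain ⟨T1, hT1⟩ := hQA
  have hlog : ∀ᶠ x : ℝ in Filter.atTop, (Real.log x) ^ 4 ≤ (1 / 270000) * x := by
    have h1 := (Real.isLittleO_pow_log_id_atTop (n := 4)).bound
      (show (0 : ℝ) < 1 / 270000 by norm_num)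
    filter_upwards [h1, Filter.eventually_ge_atTop (1 : ℝ)] with x hx hx1
    rw [Real.norm_eq_abs, id, Real.norm_eq_abs, abs_of_nonneg (by linarith : (0 : ℝ) ≤ x)] at hx
    exact (le_abs_self _).trans hx
  obtain ⟨A, hA⟩ := Filter.eventually_atTop.1 hlog
  refine ⟨max T1 (max ⌈A⌉₊ 200), fun T hT => ?_⟩
  have hT1' : T1 ≤ T := (le_max_left _ _).trans hT
  have hT2 : ⌈A⌉₊ ≤ T := ((le_max_left _ _).trans (le_max_right _ _)).trans hT
  have hT3 : 200 ≤ T := ((le_max_right _ _).trans (le_max_right _ _)).trans hT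
  have hAT : A ≤ T := (Nat.le_ceil A).trans (by exact_mod_cast hT2)
  have hl4 := hA T hAT
  have hmain := (hT1 T hT1').trans (total T (by omega))
  have hTR : (200 : ℝ) ≤ T := by exact_mod_cast hT3
  have hlogpos : 0 < Real.log T := Real.log_pos (by linarith)
  rw [div_le_iff₀ (by positivity)] at hmain
  -- small terms
  have hsmall : (((T : ℝ) ^ 50 + 1) * (100 * T + 1)) ≤ T ^ 99 := by
    have h0 : (1 : ℝ) ≤ T := by linarith
    have h1 : (1 : ℝ) ≤ (T : ℝ) ^ 50 := one_le_pow₀ h0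
    have h2 : (T : ℝ) ^ 50 + 1 ≤ 2 * T ^ 50 := by linarith
    have h3 : (100 : ℝ) * T + 1 ≤ T ^ 2 := by nlinarith
    have h4 : ((T : ℝ) ^ 50 + 1) * (100 * T + 1) ≤ (2 * T ^ 50) * T ^ 2 :=
      mul_le_mul h2 h3 (by positivity) (by positivity)
    have h5 : (2 * (T : ℝ) ^ 50) * T ^ 2 ≤ (T * T ^ 50) * T ^ 2 := by
      apply mul_le_mul_of_nonneg_right _ (by positivity)
      apply mul_le_mul_of_nonneg_right _ (by positivity)
      linarith
    have h6 : ((T : ℝ) * T ^ 50) * T ^ 2 = T ^ 53 := by ring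
    have h7 : (T : ℝ) ^ 53 ≤ T ^ 99 := pow_le_pow_right₀ h0 (by norm_num)
    linarith
  have hX : (T : ℝ) ^ 100 ≤ (((RR T).card : ℝ) + 2 * T ^ 99) * (90000 * (Real.log T) ^ 4) := by
    have h1 : (((RR T).card : ℝ) + T ^ 99 + (T ^ 50 + 1) * (100 * T + 1)) ≤
        ((RR T).card : ℝ) + 2 * T ^ 99 := by linarith
    have h2 : (((RR T).card : ℝ) + T ^ 99 + (T ^ 50 + 1) * (100 * T + 1)) *
      (9 * (100 * Real.log T) ^ 2) * (Real.log T) ^ 2 ≤
      (((RR T).card : ℝ) + 2 * T ^ 99) * (90000 * (Real.log T) ^ 4) := by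
      have h3 : (((RR T).card : ℝ) + T ^ 99 + (T ^ 50 + 1) * (100 * T + 1)) *
        (9 * (100 * Real.log T) ^ 2) * (Real.log T) ^ 2 =
        (((RR T).card : ℝ) + T ^ 99 + (T ^ 50 + 1) * (100 * T + 1)) *
        (90000 * (Real.log T) ^ 4) := by ring
      rw [h3]
      exact mul_le_mul_of_nonneg_right h1 (by positivity)
    exact hmain.trans h2
  have hl4' : 90000 * (Real.log T) ^ 4 ≤ (T : ℝ) / 3 := by linarith
  have hX2 : (T : ℝ) ^ 100 ≤ (((RR T).card : ℝ) + 2 * T ^ 99) * ((T : ℝ) / 3) :=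
    hX.trans (mul_le_mul_of_nonneg_left hl4' (by positivity))
  have hcard : (T : ℝ) ^ 99 ≤ (RR T).card := by
    have hTpos : (0 : ℝ) < T := by linarith
    have h1 : (T : ℝ) ^ 100 = (3 * T ^ 99) * (T / 3) := by ring
    rw [h1] at hX2
    have h2 := le_of_mul_le_mul_right hX2 (by positivity)
    linarith
  have hcardN : T ^ 98 ≤ (RR T).card := by
    have h1 : T ^ 99 ≤ (RR T).card := by exact_mod_cast hcard
    exact (Nat.pow_le_pow_right (by omega) (by norm_num)).trans h1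
  obtain ⟨Q, hQ1, hQ2⟩ := Finset.exists_subset_card_eq hcardN
  exact ⟨Q, hQ2, fun r hr => RR_smooth T r (by omega) (hQ1 hr)⟩

end Pool.Agent.W799.CM
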